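import Pool.Agent.H830.OT.T_A
import Pool.Agent.H830.OT.T_L12
import Pool.Agent.H830.OT.T_W
import Pool.Agent.H830.GT.Asm
import Pool.Agent.H830.GT.Def2
import Pool.Agent.H830.GT.T_BB
import Pool.Agent.H830.GT.T_C12
import Pool.Agent.H830.GT.T_Cc
import Pool.Agent.H830.GT.T_Cones
import Pool.Agent.H830.GT.T_D
import Pool.Agent.H830.GT.T_GG
import Pool.Agent.H830.GT.T_L2
import Pool.Agent.H830.GT.T_L34
import Pool.Agent.H830.GT.T_Step
import Pool.Agent.H830.GT.T_Sum
import Pool.Agent.H830.GT.T_VZ
import Pool.Agent.H830.GT.T_c3
import Pool.Agent.H830.GT.T_r3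

/-!
# The minimal number of pentachora: all generalised triangulations

`X` is a generalised triangulation of a closed 4-dimensional pseudomanifold with `n` pentachora:
the facets are glued in pairs by arbitrary affine bijections. In a triangulation of a manifold no
face is identified with itself by a nontrivial permutation of its vertices (`Valid`). Nothing else is
assumed about the links.

**Theorem.** Let `X` be connected, orientable and valid, with `β₁(X) = 0`. Then
* `n ≥ (3/2) (β₂ - β₃ + 1)`;
* `n ≥ 2 β₂ - 2 β₃ + 2` unless there is a pentachoron whose five vertices are identified and the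
  number of vertices of degree one (they lie in only one corner of a pentachoron and the four edges
  at it are identified) is at least `o + l + 3`, where `o` is the number of the pentachora whose five
  vertices are identified and `l` the number of edges which are loops;
* in this last case still `3 n ≥ 6 (β₂ - β₃ + 1) - 2 (c - o - l)` with the number `c` of vertices of
  degree one.
In particular, every triangulation of a simply connected closed 4-manifold `M` (`β₁ = β₃ = 0`) has
`n ≥ (3/2) (β₂(M) + 1)` pentachora, and `n ≥ 2 β₂(M) + 2` unless the degree-one vertices dominate.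

Idea of the proof. By a count of cells `n ≥ 2 β₂ - 2 β₃ + 2` is equivalent to `T + w ≤ 2 n + E`,
where `T`, `E` are the numbers of triangles and edges and `w` is the dimension of the space of
1-cocycles. An inequality between the numbers of orbits of involutions (linear algebra over the field
with two elements) and `Valid` give `3 T ≤ 5 n + 2 E`. Growing the triangulation from a pentachoron
gives `3 w ≤ E + n + 2` if no facet is flat (a facet is flat if all 1-cocycles vanish on it). If there are
flat facets, one cuts along them; each component is grown from a flat facet, and gains except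
for the caps: pentachora with a flat facet whose four other facets are glued in two pairs and
whose four other edges are identified. A cap has a vertex of degree one.
-/

namespace Pool.Agent.Results.MP_42180a_gt.AllTriangulations

open Pool.Agent.H830.GT

/-- **Generalised triangulations with `n` pentachora: `3 (β₂ + 1) ≤ 2 n + 3 β₃`; and
`2 (β₂ + 1) ≤ n + 2 β₃` unless `numCones ≥ onePoint + numLoops + 3` and `onePoint ≥ 1`.** -/
theorem result (P : Type) [Finite P] [Nonempty P] (X : GenTriangulation P)
    (hconn : X.Connected) (hvalid : X.Valid) (hor : X.Orientable) (hb1 : X.bettiNumber 1 = 0) :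
    3 * (X.bettiNumber 2 + 1) ≤ 2 * Nat.card P + 3 * X.bettiNumber 3 ∧
    (X.onePoint = 0 ∨ X.numCones ≤ X.onePoint + X.numLoops + 2 →
      2 * (X.bettiNumber 2 + 1) ≤ Nat.card P + 2 * X.bettiNumber 3) ∧
    (1 ≤ X.onePoint →
      6 * (X.bettiNumber 2 + 1) + 2 * (X.onePoint + X.numLoops) ≤
        3 * Nat.card P + 6 * X.bettiNumber 3 + 2 * X.numCones) := by
  have hLL : S_LL := T_LL Pool.Agent.H830.OT.T_A (Pool.Agent.H830.OT.T_L1 Pool.Agent.H830.OT.T_W)
    (T_L2 Pool.Agent.H830.OT.T_W) T_L3 T_L4
  have hB : S_B := T_B T_c2 T_c1 T_z1 T_c3 T_r3 T_b2 T_b3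
  exact T_Final hLL hB (T_GG T_Step T_Start) (T_D T_Step) (T_Sum (T_Cc T_Step T_Start)) T_E T_Ev
    (T_Cones (T_Z T_V)) (T_Loops (T_Z T_V)) P X hconn hvalid hor hb1

end Pool.Agent.Results.MP_42180a_gt.AllTriangulations
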