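import Pool.Agent.H830.OT.Def
import Pool.Agent.H830.OT.Asm
import Pool.Agent.H830.OT.T_A
import Pool.Agent.H830.OT.T_B
import Pool.Agent.H830.OT.T_BB
import Pool.Agent.H830.OT.T_C12
import Pool.Agent.H830.OT.T_C3
import Pool.Agent.H830.OT.T_Comp
import Pool.Agent.H830.OT.T_G
import Pool.Agent.H830.OT.T_L12
import Pool.Agent.H830.OT.T_L34
import Pool.Agent.H830.OT.T_Par
import Pool.Agent.H830.OT.T_Pure
import Pool.Agent.H830.OT.T_S1
import Pool.Agent.H830.OT.T_S2
import Pool.Agent.H830.OT.T_W

/-!
# The minimal number of pentachora: ordered triangulations

An *ordered triangulation* is a generalised triangulation (`Δ`-complex) in which the vertices of each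
pentachoron are numbered `0, …, 4` such that all the gluing maps of the facets preserve the order of
the vertices. Two pentachora may be glued along several facets, facets of the same pentachoron may be
glued, and there may be a single vertex.

**Theorem.** Every closed connected orientable ordered triangulation `X` with `n` pentachora
satisfies `n ≥ 2 β₂(X) - 2 β₃(X) + 2`. Nothing is assumed about the links.
In particular, if a simply connected closed `4`-manifold `M` has an ordered triangulation with `n`
pentachora then `n ≥ 2 β₂(M) + 2`.

Idea of the proof. By a count of cells this follows from `T + w ≤ 2 n + E`, where `T`, `E`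
are the numbers of triangles and edges and `w` the dimension of the space of 1-cocycles. (For
a manifold `w` is the number of vertices minus one.) Call a facet flat if all 1-cocycles vanish on
it. If there are no flat facets, the inequality follows from `3 T ≤ 5 n + 2 E` (an
inequality on the orbits of three involutions, by linear algebra over the field with two elements), and
`3 w ≤ E + n + 2` (growing the triangulation from one pentachoron: a new dimension of the 1-cocycles
costs one pentachoron and two edges). In general, all the flat facets are cut open and both
sides are closed by a cap which identifies the four triangles in two pairs; the order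
of the vertices is used to do this consistently. The effect of this on the numbers of triangles and
edges is controlled by linear algebra, and for the resulting components the
growth argument together with a parity argument (signs of permutations) applies.
-/

namespace Pool.Agent.Results.MP_42180a_gt.OrderedTriangulations

open Pool.Agent.H830.OT

/-- **Closed connected orientable ordered triangulations with `n` pentachora satisfy
`2 β₂ + 2 ≤ n + 2 β₃`.** -/
theorem result (P : Type) [Finite P] [Nonempty P] (X : OrderedTriangulation P)
    (hconn : X.Connected) (hor : X.Orientable) :
    2 * X.betti 2 + 2 ≤ Nat.card P + 2 * X.betti 3 := by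
  have hL : S_L := T_L T_A (T_L1 T_W) (T_L2 T_W) T_L3 T_L4
  have hS : S_S := T_S (T_S1 T_A T_W) T_S2
  have hMain : S_Main := T_Main hL hS T_G1 T_G2 (T_Par T_B T_W') T_Pure T_Comp
  exact T_Final hMain T_c2 T_c1 T_z1 (T_c3 T_W) T_r3 T_b2 T_b3 P X hconn hor

end Pool.Agent.Results.MP_42180a_gt.OrderedTriangulations
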